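import Mathlib

set_option autoImplicit false

namespace Pool.Agent.H701Z.Amen

variable {G : Type*}

/-- The finitely supported probability measures on `G`: finitely supported nonnegative weights
with total sum `1`. -/
abbrev FinProb (G : Type*) : Type _ :=
  {μ : G →₀ ℝ // (∀ x, 0 ≤ μ x) ∧ μ.sum (fun _ a => a) = 1}

/-- The measure `μ(B)` of a set `B`: the sum of the weights of the points of `B`. -/
noncomputable def mass (μ : G →₀ ℝ) (B : Set G) : ℝ :=
  μ.sum fun x a => B.indicator (fun _ => a) x

/-- The density `is₁₂(A) = inf_μ sup_y μ(A y)`, over finitely supported probability measures. -/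
noncomputable def is12 [Group G] (A : Set G) : ℝ :=
  ⨅ μ : FinProb G, ⨆ y : G, mass μ.1 ((fun a => a * y) '' A)

/-- `G` is amenable: there is a left-invariant finitely additive probability measure defined on
all subsets of `G`. -/
def Amenable (G : Type*) [Group G] : Prop :=
  ∃ m : Set G → ℝ, (∀ A, 0 ≤ m A) ∧ m Set.univ = 1 ∧
    (∀ A B, Disjoint A B → m (A ∪ B) = m A + m B) ∧
    ∀ (g : G) (A : Set G), m ((fun a => g * a) '' A) = m A

end Pool.Agent.H701Z.Amen
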