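import Pool.Agent.H701Z.Amen.Defs

set_option autoImplicit false

namespace Pool.Agent.H701Z.Amen

open Set

variable {G : Type*} [Group G]

/-- Finitely additive probability measures on `G`. -/
def Means (G : Type*) : Set (Set G → ℝ) :=
  {m | (∀ A, 0 ≤ m A) ∧ m Set.univ = 1 ∧ ∀ A B, Disjoint A B → m (A ∪ B) = m A + m B}

/-- The translate of a measure. -/
def act (g : G) (m : Set G → ℝ) : Set G → ℝ := fun E => m ((fun a => g * a) ⁻¹' E)

lemma act_act (g h : G) (m : Set G → ℝ) : act g (act h m) = act (g * h) m := by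
  funext E
  simp only [act]
  congr 1
  ext x
  simp [mul_assoc]

lemma act_one (m : Set G → ℝ) : act (1 : G) m = m := by
  funext E
  simp [act]

lemma continuous_act (g : G) : Continuous (act g : (Set G → ℝ) → (Set G → ℝ)) :=
  continuous_pi fun _ => continuous_apply _

omit [Group G] in
lemma mean_compl {m : Set G → ℝ} (hm : m ∈ Means G) (E : Set G) : m Eᶜ = 1 - m E := by
  have := hm.2.2 E Eᶜ disjoint_compl_right
  rw [union_compl_self, hm.2.1] at this
  linarith

omit [Group G] in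
lemma isClosed_means : IsClosed (Means G) := by
  have h : Means G = (⋂ A, {m : Set G → ℝ | 0 ≤ m A}) ∩ ({m : Set G → ℝ | m Set.univ = 1} ∩
      ⋂ A, ⋂ B, ⋂ (_ : Disjoint A B), {m : Set G → ℝ | m (A ∪ B) = m A + m B}) := by
    ext m
    simp [Means]
  rw [h]
  refine IsClosed.inter (isClosed_iInter fun A => isClosed_le continuous_const (continuous_apply A))
    (IsClosed.inter (isClosed_eq (continuous_apply _) continuous_const) ?_)
  refine isClosed_iInter fun A => isClosed_iInter fun B => isClosed_iInter fun _ => ?_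
  exact isClosed_eq (continuous_apply _) ((continuous_apply A).add (continuous_apply B))

omit [Group G] in
lemma isCompact_means : IsCompact (Means G) := by
  have h : IsCompact (Set.pi Set.univ fun _ : Set G => Set.Icc (0 : ℝ) 1) :=
    isCompact_univ_pi fun _ => isCompact_Icc
  refine h.of_isClosed_subset isClosed_means ?_
  intro m hm E _
  refine ⟨hm.1 E, ?_⟩
  have h1 := mean_compl hm E
  have h2 := hm.1 Eᶜ
  linarith

omit [Group G] in
lemma convex_means : Convex ℝ (Means G) := by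
  intro m hm m' hm' a b ha hb hab
  refine ⟨fun A => ?_, ?_, fun A B hAB => ?_⟩
  · have := hm.1 A
    have := hm'.1 A
    simp only [Pi.add_apply, Pi.smul_apply, smul_eq_mul]
    positivity
  · simp only [Pi.add_apply, Pi.smul_apply, smul_eq_mul, hm.2.1, hm'.2.1]
    linarith
  · simp only [Pi.add_apply, Pi.smul_apply, smul_eq_mul, hm.2.2 A B hAB, hm'.2.2 A B hAB]
    ring

lemma act_mem_means (g : G) {m : Set G → ℝ} (hm : m ∈ Means G) : act g m ∈ Means G := by
  refine ⟨fun A => hm.1 _, ?_, fun A B hAB => ?_⟩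
  · simp only [act, preimage_univ, hm.2.1]
  · simp only [act, preimage_union]
    exact hm.2.2 _ _ (hAB.preimage _)

lemma means_nonempty : (Means G).Nonempty := by
  classical
  refine ⟨fun A => if (1 : G) ∈ A then 1 else 0, fun A => ?_, by simp, fun A B hAB => ?_⟩
  · dsimp only
    split_ifs <;> norm_num
  · by_cases hA : (1 : G) ∈ A
    · have hB : (1 : G) ∉ B := fun hB => Set.disjoint_left.1 hAB hA hB
      simp [hA, hB]
    · by_cases hB : (1 : G) ∈ B <;> simp [hA, hB]

/-- Nonempty closed convex invariant sets of measures. -/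
def Good (Q : Set (Set G → ℝ)) : Prop :=
  Q ⊆ Means G ∧ Q.Nonempty ∧ IsClosed Q ∧ Convex ℝ Q ∧ ∀ g : G, ∀ m ∈ Q, act g m ∈ Q

lemma exists_minimal : ∃ Q : Set (Set G → ℝ), Good Q ∧ ∀ Q', Good Q' → Q' ⊆ Q → Q' = Q := by
  have hM : Good (Means G) :=
    ⟨Subset.rfl, means_nonempty, isClosed_means, convex_means, fun g _ hm => act_mem_means g hm⟩
  obtain ⟨Q, -, hQ⟩ := zorn_superset_nonempty {Q : Set (Set G → ℝ) | Good Q} (by
    intro c hc hchain hne
    refine ⟨⋂₀ c, ⟨?_, ?_, ?_, ?_, ?_⟩, fun s hs => sInter_subset_of_mem hs⟩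
    · obtain ⟨s, hs⟩ := hne
      exact (sInter_subset_of_mem hs).trans (hc hs).1
    · have : Nonempty c := hne.to_subtype
      refine IsCompact.nonempty_sInter_of_directed_nonempty_isCompact_isClosed ?_
        (fun U hU => (hc hU).2.1)
        (fun U hU => isCompact_means.of_isClosed_subset (hc hU).2.2.1 (hc hU).1)
        (fun U hU => (hc hU).2.2.1)
      intro a ha b hb
      rcases hchain.total ha hb with h | h
      · exact ⟨a, ha, Subset.rfl, h⟩
      · exact ⟨b, hb, h, Subset.rfl⟩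
    · exact isClosed_sInter fun s hs => (hc hs).2.2.1
    · exact convex_sInter fun s hs => (hc hs).2.2.2.1
    · intro g m hm
      exact mem_sInter.2 fun s hs => (hc hs).2.2.2.2 g m (mem_sInter.1 hm s hs)) (Means G) hM
  exact ⟨Q, hQ.prop, fun Q' hQ' hsub => Subset.antisymm hsub (hQ.le_of_le hQ' hsub)⟩

/-- A finite-dimensional minimax statement. -/
lemma separation {X : Type*} [Fintype X] (C : Set (X → ℝ)) (hC : Convex ℝ C) (hne : C.Nonempty)
    (c : ℝ) (h : ∀ v ∈ C, ∃ x, v x ≤ c) :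
    ∃ w : X → ℝ, (∀ x, 0 ≤ w x) ∧ ∑ x, w x = 1 ∧ ∀ v ∈ C, ∑ x, w x * v x ≤ c := by
  classical
  set O : Set (X → ℝ) := {v | ∀ x, c < v x} with hO
  have hOopen : IsOpen O := by
    have : O = ⋂ x, {v : X → ℝ | c < v x} := by
      ext v; simp [hO]
    rw [this]
    exact isOpen_iInter_of_finite fun x => isOpen_lt continuous_const (continuous_apply x)
  have hOconv : Convex ℝ O := by
    intro v hv v' hv' a b ha hb hab x
    have h1 := hv x
    have h2 := hv' x
    simp only [Pi.add_apply, Pi.smul_apply, smul_eq_mul]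
    rcases ha.eq_or_lt with rfl | ha'
    · have : b = 1 := by linarith
      subst this
      simpa using h2
    · have : c = a * c + b * c := by rw [← add_mul, hab, one_mul]
      nlinarith [mul_lt_mul_of_pos_left h1 ha', mul_le_mul_of_nonneg_left h2.le hb]
  have hdisj : Disjoint O C := by
    rw [Set.disjoint_left]
    intro v hv hvC
    obtain ⟨x, hx⟩ := h v hvC
    exact absurd (hv x) (not_lt.2 hx)
  obtain ⟨f, u, hf1, hf2⟩ := geometric_hahn_banach_open hOconv hOopen hC hdisj
  set l : X → ℝ := fun x => - f (Pi.single x 1) with hl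
  have hf : ∀ v : X → ℝ, f v = - ∑ x, l x * v x := by
    intro v
    have hv : v = ∑ x, v x • (Pi.single x (1 : ℝ) : X → ℝ) := by
      funext y
      simp [Finset.sum_apply, Pi.single_apply]
    conv_lhs => rw [hv]
    rw [map_sum, ← Finset.sum_neg_distrib]
    refine Finset.sum_congr rfl fun x _ => ?_
    rw [map_smul, smul_eq_mul, hl]
    ring
  have hconst : ∀ t : ℝ, 0 < t → -u < (c + t) * ∑ x, l x := by
    intro t ht
    have := hf1 (fun _ => c + t) (fun _ => by linarith)
    rw [hf, ← Finset.sum_mul] at this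
    linarith
  have hl0 : ∀ x, 0 ≤ l x := by
    intro x
    by_contra hx
    push Not at hx
    set s : ℝ := (c + 1) * ∑ y, l y + u with hs
    have hspos : 0 < s := by have := hconst 1 one_pos; linarith
    set t : ℝ := s / (-l x) with ht
    have htpos : 0 < t := div_pos hspos (by linarith)
    have := hf1 (fun y => (c + 1) + t * (Pi.single x (1 : ℝ) : X → ℝ) y) (fun y => by
      have : 0 ≤ (Pi.single x (1 : ℝ) : X → ℝ) y := by
        rw [Pi.single_apply]; split_ifs <;> norm_num
      have := mul_nonneg htpos.le this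
      linarith)
    rw [hf] at this
    have h2 : ∑ y, l y * ((c + 1) + t * (Pi.single x (1 : ℝ) : X → ℝ) y)
        = (c + 1) * ∑ y, l y + t * l x := by
      simp only [mul_add, Finset.sum_add_distrib]
      congr 1
      · rw [← Finset.sum_mul, ← Finset.sum_mul]
        ring
      · rw [Finset.sum_eq_single x]
        · simp [mul_comm]
        · intro y _ hy
          simp [hy]
        · simp
    rw [h2] at this
    have h3 : t * l x = -s := by
      rw [ht, div_mul_eq_mul_div, div_eq_iff (by linarith)]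
      ring
    linarith
  set L : ℝ := ∑ x, l x with hL
  have hL0 : 0 ≤ L := Finset.sum_nonneg fun x _ => hl0 x
  have hLpos : 0 < L := by
    rcases hL0.eq_or_lt with h0 | h0
    · exfalso
      have hz : ∀ x, l x = 0 := by
        intro x
        have := (Finset.sum_eq_zero_iff_of_nonneg fun x _ => hl0 x).1 h0.symm
        exact this x (Finset.mem_univ x)
      obtain ⟨v, hv⟩ := hne
      have h1 := hf2 v hv
      rw [hf] at h1
      simp only [hz, zero_mul, Finset.sum_const_zero, neg_zero] at h1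
      have h2 := hconst 1 one_pos
      rw [← h0] at h2
      linarith
    · exact h0
  have hu : -u ≤ c * L := by
    by_contra hc
    push Not at hc
    have := hconst ((-u - c * L) / L) (div_pos (by linarith) hLpos)
    rw [add_mul, div_mul_cancel₀ _ hLpos.ne'] at this
    linarith
  refine ⟨fun x => l x / L, fun x => div_nonneg (hl0 x) hL0, ?_, fun v hv => ?_⟩
  · rw [← Finset.sum_div, ← hL, div_self hLpos.ne']
  · have h1 := hf2 v hv
    rw [hf] at h1
    have : ∑ x, l x / L * v x = (∑ x, l x * v x) / L := by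
      rw [Finset.sum_div]
      exact Finset.sum_congr rfl fun x _ => by ring
    rw [this, div_le_iff₀ hLpos]
    linarith

lemma exists_weights {Q : Set (Set G → ℝ)} (hQ : Good Q)
    (hmin : ∀ Q', Good Q' → Q' ⊆ Q → Q' = Q) (E : Set G) {m₁ : Set G → ℝ} (hm₁ : m₁ ∈ Q)
    {δ : ℝ} (hδ : 0 < δ) :
    ∃ (X : Finset G) (w : X → ℝ), (∀ x, 0 ≤ w x) ∧ ∑ x, w x = 1 ∧
      ∀ m ∈ Q, ∑ x, w x * act (x : G) m E ≤ m₁ E + δ := by
  set c := m₁ E + δ with hc
  set t : G → Set (Set G → ℝ) := fun x => {m | c ≤ act x m E} with ht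
  have htc : ∀ x, IsClosed (t x) := fun x =>
    isClosed_le continuous_const ((continuous_apply E).comp (continuous_act x))
  have hempty : Q ∩ ⋂ x, t x = ∅ := by
    by_contra hne
    have hne' : (Q ∩ ⋂ x, t x).Nonempty := nonempty_iff_ne_empty.2 hne
    have hgood : Good (Q ∩ ⋂ x, t x) := by
      refine ⟨inter_subset_left.trans hQ.1, hne', hQ.2.2.1.inter (isClosed_iInter htc),
        hQ.2.2.2.1.inter (convex_iInter fun x => ?_), ?_⟩
      · intro m hm m' hm' a b ha hb hab
        have h1 : c ≤ act x m E := hm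
        have h2 : c ≤ act x m' E := hm'
        change c ≤ act x (a • m + b • m') E
        simp only [act, Pi.add_apply, Pi.smul_apply, smul_eq_mul] at h1 h2 ⊢
        have : c = a * c + b * c := by rw [← add_mul, hab, one_mul]
        nlinarith [mul_le_mul_of_nonneg_left h1 ha, mul_le_mul_of_nonneg_left h2 hb]
      · intro g m hm
        refine ⟨hQ.2.2.2.2 g m hm.1, mem_iInter.2 fun x => ?_⟩
        change c ≤ act x (act g m) E
        rw [act_act]
        exact mem_iInter.1 hm.2 (x * g)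
    have heq := hmin _ hgood inter_subset_left
    have h1 : m₁ ∈ Q ∩ ⋂ x, t x := by rw [heq]; exact hm₁
    have h2 : c ≤ act 1 m₁ E := mem_iInter.1 h1.2 1
    rw [act_one] at h2
    linarith
  have hQc : IsCompact Q := isCompact_means.of_isClosed_subset hQ.2.2.1 hQ.1
  obtain ⟨X, hX⟩ := hQc.elim_finite_subfamily_closed t htc hempty
  set Φ : (Set G → ℝ) →ₗ[ℝ] (X → ℝ) :=
    { toFun := fun m x => act (x : G) m E
      map_add' := fun _ _ => rfl
      map_smul' := fun _ _ => rfl } with hΦ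
  obtain ⟨w, hw0, hw1, hw⟩ := separation (Φ '' Q) (hQ.2.2.2.1.linear_image Φ)
    (hQ.2.1.image _) c (by
      rintro _ ⟨m, hm, rfl⟩
      by_contra hcon
      push Not at hcon
      refine Set.disjoint_left.1 (Set.disjoint_iff_inter_eq_empty.2 hX) hm ?_
      simp only [mem_iInter]
      intro x hx
      exact (hcon ⟨x, hx⟩).le)
  exact ⟨X, w, hw0, hw1, fun m hm => hw _ ⟨m, hm, rfl⟩⟩

omit [Group G] in
lemma mass_nonneg (μ : FinProb G) (B : Set G) : 0 ≤ mass μ.1 B :=
  Finset.sum_nonneg fun x _ => Set.indicator_nonneg (fun _ _ => μ.2.1 x) x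

lemma is12_eq_zero (A : Set G)
    (h : ∀ ε : ℝ, 0 < ε → ∃ μ : FinProb G, ∀ y : G, mass μ.1 ((fun a => a * y) '' A) ≤ ε) :
    is12 A = 0 := by
  have hnn : ∀ μ : FinProb G, 0 ≤ ⨆ y : G, mass μ.1 ((fun a => a * y) '' A) :=
    fun μ => Real.iSup_nonneg fun y => mass_nonneg μ _
  refine le_antisymm ?_ (Real.iInf_nonneg hnn)
  refine le_of_forall_pos_le_add fun ε hε => ?_
  obtain ⟨μ, hμ⟩ := h ε hε
  rw [zero_add]
  exact (ciInf_le ⟨0, by rintro _ ⟨ν, rfl⟩; exact hnn ν⟩ μ).trans (ciSup_le hμ)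

lemma null_of_gap {Q : Set (Set G → ℝ)} (hQ : Good Q)
    (hmin : ∀ Q', Good Q' → Q' ⊆ Q → Q' = Q) (E : Set G) {m₀ m₁ : Set G → ℝ} (hm₀ : m₀ ∈ Q)
    (hm₁ : m₁ ∈ Q) (hlow : ∀ m ∈ Q, m₁ E ≤ m E) {η : ℝ} (hη : 0 < η) (A : Set G)
    (hA : ∀ g ∈ A, m₁ E + η ≤ act g m₀ E) : is12 A = 0 := by
  classical
  refine is12_eq_zero A fun ε hε => ?_
  obtain ⟨X, w, hw0, hw1, hw⟩ := exists_weights hQ hmin E hm₁ (mul_pos hε hη)
  set μ : G →₀ ℝ := ∑ x : X, Finsupp.single (x : G) (w x) with hμ
  have hsum : ∀ φ : G → ℝ → ℝ, (∀ x, φ x 0 = 0) → (∀ x a b, φ x (a + b) = φ x a + φ x b) →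
      μ.sum φ = ∑ x : X, φ x (w x) := by
    intro φ h0 hadd
    rw [hμ, ← Finsupp.sum_finsetSum_index h0 hadd]
    exact Finset.sum_congr rfl fun x _ => Finsupp.sum_single_index (h0 _)
  refine ⟨⟨μ, fun x => ?_, ?_⟩, fun y => ?_⟩
  · rw [hμ, Finsupp.finsetSum_apply]
    refine Finset.sum_nonneg fun z _ => ?_
    rw [Finsupp.single_apply]
    split_ifs
    · exact hw0 z
    · exact le_rfl
  · rw [hsum _ (fun _ => rfl) (fun _ _ _ => rfl), hw1]
  · change mass μ _ ≤ ε
    unfold mass
    rw [hsum _ (fun x => by simp) (fun x a b => by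
      by_cases hx : x ∈ (fun a => a * y) '' A
      · simp only [Set.indicator_of_mem hx]
      · simp only [Set.indicator_of_notMem hx, add_zero])]
    have h1 := hw (act y⁻¹ m₀) (hQ.2.2.2.2 _ _ hm₀)
    have h2 : ∑ x : X, ((fun a => a * y) '' A).indicator (fun _ => w x) (x : G) * η
        ≤ ∑ x : X, w x * (act (x : G) (act y⁻¹ m₀) E - m₁ E) := by
      refine Finset.sum_le_sum fun x _ => ?_
      by_cases hx : (x : G) ∈ (fun a => a * y) '' A
      · rw [Set.indicator_of_mem hx]
        obtain ⟨a, ha, hax⟩ := hx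
        have h3 := hA a ha
        have : (x : G) * y⁻¹ = a := by
          rw [← hax]; simp
        rw [act_act, this]
        exact mul_le_mul_of_nonneg_left (by linarith) (hw0 x)
      · rw [Set.indicator_of_notMem hx, zero_mul]
        have := hlow _ (hQ.2.2.2.2 (x : G) _ (hQ.2.2.2.2 y⁻¹ _ hm₀))
        exact mul_nonneg (hw0 x) (by linarith)
    simp only [mul_sub, Finset.sum_sub_distrib] at h2
    rw [← Finset.sum_mul, ← Finset.sum_mul, hw1] at h2
    exact le_of_mul_le_mul_right (by linarith) hη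

theorem exists_null_partition (hG : ¬ Amenable G) :
    ∃ A : Set G, is12 A = 0 ∧ is12 Aᶜ = 0 := by
  obtain ⟨Q, hQ, hmin⟩ := exists_minimal (G := G)
  have hQc : IsCompact Q := isCompact_means.of_isClosed_subset hQ.2.2.1 hQ.1
  obtain ⟨m₀, hm₀⟩ := hQ.2.1
  have hne : ∃ (g : G) (E : Set G), act g m₀ E ≠ m₀ E := by
    by_contra hcon
    push Not at hcon
    refine hG ⟨m₀, (hQ.1 hm₀).1, (hQ.1 hm₀).2.1, (hQ.1 hm₀).2.2, fun g A => ?_⟩
    rw [← hcon g ((fun a => g * a) '' A)]
    simp only [act]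
    rw [Set.preimage_image_eq _ (mul_right_injective g)]
  obtain ⟨g, E, hgE⟩ := hne
  obtain ⟨m₁, hm₁, hlow⟩ := hQc.exists_isMinOn hQ.2.1 (continuous_apply E).continuousOn
  obtain ⟨m₂, hm₂, hhigh⟩ := hQc.exists_isMaxOn hQ.2.1 (continuous_apply E).continuousOn
  have hlow' : ∀ m ∈ Q, m₁ E ≤ m E := fun m hm => hlow hm
  have hhigh' : ∀ m ∈ Q, m E ≤ m₂ E := fun m hm => hhigh hm
  have hlt : m₁ E < m₂ E := by
    have h1 := hlow' _ hm₀
    have h2 := hhigh' _ hm₀
    have h3 := hlow' _ (hQ.2.2.2.2 g _ hm₀)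
    have h4 := hhigh' _ (hQ.2.2.2.2 g _ hm₀)
    by_contra hc
    push Not at hc
    exact hgE (by linarith)
  have hη : 0 < (m₂ E - m₁ E) / 2 := by linarith
  refine ⟨{x | m₁ E + (m₂ E - m₁ E) / 2 ≤ act x m₀ E},
    null_of_gap hQ hmin E hm₀ hm₁ hlow' hη _ (fun _ hx => hx), ?_⟩
  refine null_of_gap hQ hmin Eᶜ hm₀ hm₂ (fun m hm => ?_) hη _ (fun x hx => ?_)
  · rw [mean_compl (hQ.1 hm), mean_compl (hQ.1 hm₂)]
    linarith [hhigh' m hm]
  · have hx' : act x m₀ E < m₁ E + (m₂ E - m₁ E) / 2 := not_le.1 hx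
    rw [mean_compl (hQ.1 hm₂), mean_compl (hQ.1 (hQ.2.2.2.2 x _ hm₀))]
    linarith

end Pool.Agent.H701Z.Amen
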